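import Pool.Agent.H24.LV.Targets
import Pool.Agent.H67.CLV.JI

/-!
# MP_e21eee_nt, board lvp_modules: rows AI, WT, PT (helper45)
-/

set_option autoImplicit false

open Finset MeasureTheory

namespace Pool.Agent.H45.LV

open Pool.Agent.H24.CL Pool.Agent.H24.LV Pool.Agent.H67.CLV

theorem intbd {k : ℕ} {F : X k → ℝ} {B : ℝ} (hF : Measurable F) (hB : ∀ a, |F a| ≤ B) :
    Integrable F (volume : Measure (X k)) :=
  Integrable.of_bound hF.aestronglyMeasurable B (Filter.Eventually.of_forall fun a => by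
    rw [Real.norm_eq_abs]; exact hB a)

theorem pf_AI : L_AI := by
  intro k Y F B hY hF hB
  have h1 : ∫ a : X k, ∑ κ ∈ Y, F (a + κ) = ∑ κ ∈ Y, ∫ a : X k, F (a + κ) := by
    refine integral_finset_sum Y fun κ _ => ?_
    exact intbd (hF.comp (measurable_add_const κ)) (fun a => hB _)
  have h2 : ∀ κ ∈ Y, ∫ a : X k, F (a + κ) = ∫ a : X k, F a := fun κ _ =>
    integral_add_right_eq_self F κ
  have hc : (0 : ℝ) < (Y.card : ℝ) := by exact_mod_cast hY.card_pos
  rw [h1, sum_congr rfl h2, sum_const, nsmul_eq_mul]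
  field_simp

theorem u_cont (hEX : T_EX) {k : ℕ} (N : ℕ) : Continuous (u N : X k → ℂ) :=
  hEX.2.2.2.2.2.2.2.1 k N

theorem u_le (hEX : T_EX) {k : ℕ} (N : ℕ) (a : X k) : ‖u N a‖ ≤ 1 :=
  hEX.2.2.2.2.2.2.2.2 k N a

theorem u_meas (hEX : T_EX) {k : ℕ} (N : ℕ) (t : ℝ) : MeasurableSet {a : X k | t ≤ ‖u N a‖} :=
  measurableSet_le measurable_const (u_cont hEX N).norm.measurable

theorem vol_le_one {k : ℕ} (S : Set (X k)) : (volume : Measure (X k)).real S ≤ 1 := by
  have := measureReal_mono (μ := (volume : Measure (X k))) (Set.subset_univ S)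
  rwa [vol_univ] at this

theorem WT_of (hIT : TK_IT) (hEX : T_EX) : L_WT := by
  intro k hk
  obtain ⟨C₀, hC₀, hIT⟩ := hIT k hk
  refine ⟨max 1 (2 * C₀), le_max_left _ _, ?_⟩
  intro N t hN ht
  have hN0 : (0 : ℝ) < N := by exact_mod_cast hN
  have hvol1 := vol_le_one {a : X k | t ≤ ‖u N a‖}
  have hvol0 : 0 ≤ (volume : Measure (X k)).real {a : X k | t ≤ ‖u N a‖} := measureReal_nonneg
  have hprod : (N : ℝ) ^ (KN k) * t ^ (2 * KN k) = ((N : ℝ) * t ^ 2) ^ (KN k) := by
    rw [mul_pow, pow_mul]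
  rw [hprod]
  by_cases h1 : 1 < t
  · have hemp : {a : X k | t ≤ ‖u N a‖} = ∅ := by
      ext a
      simp only [Set.mem_setOf_eq, Set.mem_empty_iff_false, iff_false, not_le]
      have := u_le hEX N a
      linarith
    rw [hemp, measureReal_empty, mul_zero]
    have : (1 : ℝ) ≤ max 1 (2 * C₀) := le_max_left _ _
    linarith
  by_cases h2 : (N : ℝ) * t ^ 2 ≤ 1
  · calc ((N : ℝ) * t ^ 2) ^ (KN k) * (volume : Measure (X k)).real {a : X k | t ≤ ‖u N a‖}
        ≤ 1 * 1 := mul_le_mul (pow_le_one₀ (by positivity) h2) hvol1 hvol0 (by norm_num)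
      _ ≤ max 1 (2 * C₀) := by rw [mul_one]; exact le_max_left _ _
  · have ht2 : (0 : ℝ) < t ^ 2 := by positivity
    have hM1 : 1 ≤ 1 / t ^ 2 := by
      rw [le_div_iff₀ ht2, one_mul]
      exact pow_le_one₀ ht.le (not_lt.1 h1)
    have hMN : 1 / t ^ 2 ≤ (N : ℝ) := by
      rw [div_le_iff₀ ht2]
      exact (not_le.1 h2).le
    have h3 := hIT (1 / t ^ 2) N hM1 hMN
    unfold SM at h3
    have hr : (N : ℝ) / (1 / t ^ 2) = (N : ℝ) * t ^ 2 := by field_simp
    rw [hr] at h3
    have hcont : Continuous (fun a : X k => max (1 / t ^ 2 * ‖u N a‖ ^ 2 - 1 / 2) 0) :=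
      ((continuous_const.mul ((u_cont hEX N).norm.pow 2)).sub continuous_const).max
        continuous_const
    have hint : Integrable (fun a : X k => max (1 / t ^ 2 * ‖u N a‖ ^ 2 - 1 / 2) 0)
        (volume : Measure (X k)) := intble hcont
    have hms : MeasurableSet {a : X k | t ≤ ‖u N a‖} := u_meas hEX N t
    have h4 : (1 / 2 : ℝ) * (volume : Measure (X k)).real {a : X k | t ≤ ‖u N a‖} ≤
        ∫ a : X k, max (1 / t ^ 2 * ‖u N a‖ ^ 2 - 1 / 2) 0 := by
      have h5 : ∫ a : X k, ({a : X k | t ≤ ‖u N a‖}).indicator (fun _ => (1 / 2 : ℝ)) a =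
          (1 / 2 : ℝ) * (volume : Measure (X k)).real {a : X k | t ≤ ‖u N a‖} := by
        rw [integral_indicator_const _ hms]
        simp [mul_comm]
      rw [← h5]
      refine integral_mono ?_ hint ?_
      · exact (integrable_const (1 / 2 : ℝ)).indicator hms
      · intro a
        simp only [Set.indicator]
        split_ifs with ha
        · have ha' : t ≤ ‖u N a‖ := ha
          have h7 : 1 ≤ 1 / t ^ 2 * ‖u N a‖ ^ 2 := by
            rw [one_div_mul_eq_div, le_div_iff₀ ht2, one_mul]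
            exact pow_le_pow_left₀ ht.le ha' 2
          apply le_max_of_le_left
          linarith
        · exact le_max_right _ _
    have h8 : ((N : ℝ) * t ^ 2) ^ (KN k) * ((1 / 2 : ℝ) *
        (volume : Measure (X k)).real {a : X k | t ≤ ‖u N a‖}) ≤ C₀ :=
      (mul_le_mul_of_nonneg_left h4 (by positivity)).trans h3
    have h9 : ((N : ℝ) * t ^ 2) ^ (KN k) *
        (volume : Measure (X k)).real {a : X k | t ≤ ‖u N a‖} ≤ 2 * C₀ := by linarith
    exact h9.trans (le_max_right _ _)

theorem f_split (hPF : T_PF) {k : ℕ} (N' n : ℕ) (a : X k) :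
    f (N' + n) a = f N' a + e (P a N') * f n (phi 1 N' a) := by
  unfold f
  rw [sum_range_add, mul_sum]
  congr 1
  refine sum_congr rfl fun m _ => ?_
  have h := hPF.1 k 1 N' m a
  rw [one_mul] at h
  rw [h, e_add]

theorem PT_of (hPF : T_PF) (hMP : T_MP) (hEX : T_EX) (hWT : L_WT) : L_PT := by
  intro k hk
  obtain ⟨C₀, hC₀, hW⟩ := hWT k hk
  refine ⟨4 ^ (KN k) * C₀, ?_, ?_⟩
  · have : (1 : ℝ) ≤ 4 ^ (KN k) := one_le_pow₀ (by norm_num)
    nlinarith
  intro N N' t w hN' hNN ht hw hwN
  obtain ⟨n, rfl⟩ := Nat.exists_eq_add_of_le hNN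
  have hN0 : (0 : ℝ) < ((N' + n : ℕ) : ℝ) := by exact_mod_cast (by omega : 0 < N' + n)
  have hN'0 : (0 : ℝ) < (N' : ℝ) := by exact_mod_cast hN'
  set N : ℕ := N' + n with hN
  have hnw : (n : ℝ) ≤ w * N := by
    have : (N : ℝ) - N' = n := by rw [hN]; push_cast; ring
    linarith
  have hcf : Continuous (fun a : X k => f n a) := by
    have h1 : (fun a : X k => f n a) = fun a => (n : ℂ) * u n a := by
      funext a
      unfold u
      rcases Nat.eq_zero_or_pos n with h0 | h0
      · subst h0; simp [f]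
      · have : (n : ℂ) ≠ 0 := by exact_mod_cast h0.ne'
        field_simp
    rw [h1]
    exact continuous_const.mul (u_cont hEX n)
  set S2 : Set (X k) := {v : X k | (N : ℝ) * t / 2 ≤ ‖f n v‖} with hS2
  have hS2m : MeasurableSet S2 := measurableSet_le measurable_const hcf.norm.measurable
  have hsub : {a : X k | t ≤ ‖u N a‖} ⊆
      {a : X k | t / 2 ≤ ‖u N' a‖} ∪ (phi 1 N' : X k → X k) ⁻¹' S2 := by
    intro a ha
    have ha' : t ≤ ‖u N a‖ := ha
    by_cases h : t / 2 ≤ ‖u N' a‖
    · exact Or.inl h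
    · right
      change (N : ℝ) * t / 2 ≤ ‖f n (phi 1 N' a)‖
      have e1 : ‖f N a‖ = N * ‖u N a‖ := by
        unfold u
        rw [norm_div, Complex.norm_natCast]
        field_simp
      have e2 : ‖f N' a‖ = N' * ‖u N' a‖ := by
        unfold u
        rw [norm_div, Complex.norm_natCast]
        field_simp
      have e3 : ‖f N a‖ ≤ ‖f N' a‖ + ‖f n (phi 1 N' a)‖ := by
        rw [hN, f_split hPF]
        refine (norm_add_le _ _).trans ?_
        rw [norm_mul, e_norm, one_mul]
      have e4 : (N' : ℝ) * ‖u N' a‖ ≤ N * (t / 2) := by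
        have h5 : (N' : ℝ) ≤ N := by exact_mod_cast hNN
        have h6 := (not_le.1 h).le
        exact mul_le_mul h5 h6 (norm_nonneg _) hN0.le
      have e5 : (N : ℝ) * t ≤ N * ‖u N a‖ := mul_le_mul_of_nonneg_left ha' hN0.le
      linarith
  have hvol : (volume : Measure (X k)).real {a : X k | t ≤ ‖u N a‖} ≤
      (volume : Measure (X k)).real {a : X k | t / 2 ≤ ‖u N' a‖} +
        (volume : Measure (X k)).real S2 := by
    refine (measureReal_mono hsub).trans ((measureReal_union_le _ _).trans ?_)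
    obtain ⟨_, _, hm⟩ := hMP k 1 N' le_rfl
    have : (volume : Measure (X k)).real ((phi 1 N' : X k → X k) ⁻¹' S2) =
        (volume : Measure (X k)).real S2 := by
      unfold Measure.real
      rw [hm.measure_preimage hS2m.nullMeasurableSet]
    rw [this]
  have hmain : (N : ℝ) ^ (KN k) * t ^ (2 * KN k) * (volume : Measure (X k)).real S2 ≤
      4 ^ (KN k) * C₀ * w ^ (KN k) := by
    rcases Nat.eq_zero_or_pos n with h0 | h0
    · have hemp : S2 = ∅ := by
        ext v
        rw [hS2]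
        simp only [Set.mem_setOf_eq, Set.mem_empty_iff_false, iff_false, not_le]
        have : f n v = 0 := by rw [h0]; simp [f]
        rw [this, norm_zero]
        positivity
      rw [hemp, measureReal_empty, mul_zero]
      positivity
    · have hn0 : (0 : ℝ) < n := by exact_mod_cast h0
      have hset : S2 = {v : X k | (N : ℝ) * t / (2 * n) ≤ ‖u n v‖} := by
        ext v
        rw [hS2]
        simp only [Set.mem_setOf_eq]
        have e2 : ‖u n v‖ = ‖f n v‖ / n := by
          unfold u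
          rw [norm_div, Complex.norm_natCast]
        rw [e2, div_le_div_iff₀ (by positivity) hn0]
        constructor
        · intro h; nlinarith
        · intro h
          have h5 : n * ((N : ℝ) * t / 2) ≤ n * ‖f n v‖ := by nlinarith
          exact le_of_mul_le_mul_left h5 hn0
      have h5 := hW n ((N : ℝ) * t / (2 * n)) h0 (by positivity)
      rw [← hset] at h5
      have h6 : (N : ℝ) ^ (KN k) * t ^ (2 * KN k) =
          4 ^ (KN k) * ((n : ℝ) / N) ^ (KN k) *
            ((n : ℝ) ^ (KN k) * ((N : ℝ) * t / (2 * n)) ^ (2 * KN k)) := by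
        rw [pow_mul, pow_mul, ← mul_pow, ← mul_pow, ← mul_pow, ← mul_pow]
        congr 1
        field_simp
        ring
      have h7 : ((n : ℝ) / N) ^ (KN k) ≤ w ^ (KN k) := by
        refine pow_le_pow_left₀ (by positivity) ?_ _
        rw [div_le_iff₀ hN0]
        exact hnw
      have hv0 : 0 ≤ (volume : Measure (X k)).real S2 := measureReal_nonneg
      calc (N : ℝ) ^ (KN k) * t ^ (2 * KN k) * (volume : Measure (X k)).real S2
          = (4 ^ (KN k) * ((n : ℝ) / N) ^ (KN k)) *
            ((n : ℝ) ^ (KN k) * ((N : ℝ) * t / (2 * n)) ^ (2 * KN k) *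
              (volume : Measure (X k)).real S2) := by rw [h6]; ring
        _ ≤ (4 ^ (KN k) * ((n : ℝ) / N) ^ (KN k)) * C₀ :=
            mul_le_mul_of_nonneg_left h5 (by positivity)
        _ ≤ (4 ^ (KN k) * w ^ (KN k)) * C₀ := by
            refine mul_le_mul_of_nonneg_right ?_ (by linarith)
            exact mul_le_mul_of_nonneg_left h7 (by positivity)
        _ = 4 ^ (KN k) * C₀ * w ^ (KN k) := by ring
  calc (N : ℝ) ^ (KN k) * t ^ (2 * KN k) * (volume : Measure (X k)).real {a : X k | t ≤ ‖u N a‖}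
      ≤ (N : ℝ) ^ (KN k) * t ^ (2 * KN k) *
        ((volume : Measure (X k)).real {a : X k | t / 2 ≤ ‖u N' a‖} +
        (volume : Measure (X k)).real S2) := mul_le_mul_of_nonneg_left hvol (by positivity)
    _ ≤ (N : ℝ) ^ (KN k) * t ^ (2 * KN k) *
        (volume : Measure (X k)).real {a : X k | t / 2 ≤ ‖u N' a‖} +
        4 ^ (KN k) * C₀ * w ^ (KN k) := by
        rw [mul_add]
        linarith

end Pool.Agent.H45.LV
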