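import Pool.Agent.H45.LV.A

/-!
# MP_e21eee_nt, board lvp_modules: row FB (helper45)
-/

set_option autoImplicit false

open Finset MeasureTheory

namespace Pool.Agent.H45.LV

open Pool.Agent.H24.CL Pool.Agent.H24.LV Pool.Agent.H67.CLV

theorem Cnt_union {k TT : ℕ} {S : AddSubgroup (X k)} {W : Fin TT → Set (X k)} {B : ℝ}
    (h : ∀ c, Cnt S (W c) B) : Cnt S (⋃ c, W c) (TT * B) := by
  classical
  intro Y hY hYS
  have h1 : Y ⊆ (univ : Finset (Fin TT)).biUnion (fun c => Y.filter (fun y => y ∈ W c)) := by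
    intro y hy
    obtain ⟨c, hc⟩ := Set.mem_iUnion.1 (hY y hy)
    exact mem_biUnion.2 ⟨c, mem_univ _, mem_filter.2 ⟨hy, hc⟩⟩
  have h2 : (Y.card : ℝ) ≤ ∑ c : Fin TT, ((Y.filter (fun y => y ∈ W c)).card : ℝ) := by
    exact_mod_cast (card_le_card h1).trans card_biUnion_le
  refine h2.trans ?_
  calc ∑ c : Fin TT, ((Y.filter (fun y => y ∈ W c)).card : ℝ) ≤ ∑ _c : Fin TT, B := by
        refine sum_le_sum fun c _ => ?_
        refine h c _ (fun y hy => (mem_filter.1 hy).2) (fun y hy y' hy' => ?_)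
        exact hYS y (mem_filter.1 hy).1 y' (mem_filter.1 hy').1
    _ = TT * B := by
        rw [sum_const, card_univ, Fintype.card_fin, nsmul_eq_mul]

theorem Cnt_mono {k : ℕ} {S : AddSubgroup (X k)} {W W' : Set (X k)} {B B' : ℝ}
    (h : Cnt S W B) (hW : W' ⊆ W) (hB : B ≤ B') : Cnt S W' B' :=
  fun Y hY hYS => (h Y (fun y hy => hW (hY y hy)) hYS).trans hB

theorem FB_of (hGC : TK_GC) (hEX : T_EX) (hCH : L_CH) : L_FB := by
  intro k hk
  obtain ⟨CA, hCA, hCH⟩ := hCH k hk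
  have hkr : (3 : ℝ) ≤ k := by exact_mod_cast hk
  have h8 : (1 : ℝ) ≤ 8 * (k : ℝ) ^ 2 := by nlinarith
  have hlog8 : 0 ≤ Real.log (8 * (k : ℝ) ^ 2) := Real.log_nonneg h8
  refine ⟨CA * (1 + Real.log (8 * (k : ℝ) ^ 2)), by nlinarith, ?_⟩
  intro c hc hc1
  set c₁ : ℝ := c / (8 * (k : ℝ) ^ 2) with hc₁
  have hc₁0 : 0 < c₁ := by positivity
  have hc₁1 : c₁ ≤ 1 / 10 := by
    rw [hc₁, div_le_iff₀ (by positivity)]
    nlinarith
  obtain ⟨d, hd, hCH⟩ := hCH c₁ hc₁0 hc₁1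
  refine ⟨d, hd, ?_⟩
  intro Dm
  obtain ⟨q₁, TT, m₁, T, ε, hT, hε, hε1, hCH⟩ := hCH Dm c₁ hc₁0
  -- the thresholds of `TK_GC`
  have hex : ∀ m : ℕ, ∃ q₀ : ℕ, k ≤ m → ∀ (q L : ℕ) (t₀ : ℝ) (W : ℕ → Set (X k)) (A n : ℕ → ℝ),
      q₀ ≤ q → q.Prime → 1 ≤ L → 0 < t₀ → IsChain k q m L T ((q : ℝ) ^ ε) t₀ W A n →
      (∀ l < k, Gr q T ((q : ℝ) ^ ε) A n l ≤ (q : ℝ) ^ c₁) →
      Cnt (H k q k) (W 0) ((q : ℝ) ^ (4 * (k : ℝ) ^ 2 * c₁)) := by
    intro m
    by_cases hm : k ≤ m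
    · obtain ⟨q₀, h⟩ := hGC k c₁ ε T m hk hc₁0 hc₁1 hε hε1 hT hm
      exact ⟨q₀, fun _ => h⟩
    · exact ⟨0, fun h => absurd h hm⟩
  choose g hg using hex
  set q₂ : ℕ := (range (m₁ + 1)).sup g with hq₂
  set q₃ : ℕ := ⌈(TT : ℝ) ^ (2 / c)⌉₊ with hq₃
  refine ⟨max (max q₁ q₂) (max q₃ 1), ?_⟩
  intro q N t hq hqp hN ht hlow hup
  have hqq1 : q₁ ≤ q := ((le_max_left _ _).trans (le_max_left _ _)).trans hq
  have hqq2 : q₂ ≤ q := ((le_max_right _ _).trans (le_max_left _ _)).trans hq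
  have hqq3 : q₃ ≤ q := ((le_max_left _ _).trans (le_max_right _ _)).trans hq
  have hq1 : 1 ≤ q := hqp.one_lt.le
  have hqr : (1 : ℝ) ≤ q := by exact_mod_cast hq1
  have hqr0 : (0 : ℝ) < q := by linarith
  by_cases ht1 : 1 < t
  · have hemp : {a : X k | t ≤ ‖u N a‖} = ∅ := by
      ext a
      simp only [Set.mem_ofPred_eq, Set.mem_empty_iff_false, iff_false, not_le]
      have := u_le hEX N a
      linarith
    refine ⟨∅, MeasurableSet.empty, ?_, ?_⟩
    · rw [measureReal_empty, mul_zero]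
      positivity
    · intro Y hY _
      have hYe : Y = ∅ := by
        rw [eq_empty_iff_forall_notMem]
        intro y hy
        have := (hY y hy).1
        rw [hemp] at this
        exact this
      rw [hYe]
      simp only [card_empty, Nat.cast_zero]
      positivity
  · have hlog : Real.log (1 / c₁) = Real.log (1 / c) + Real.log (8 * (k : ℝ) ^ 2) := by
      rw [← Real.log_mul (by positivity) (by positivity), hc₁]
      congr 1
      field_simp
    have hlogc : 0 ≤ Real.log (1 / c) := by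
      apply Real.log_nonneg
      rw [le_div_iff₀ hc]
      linarith
    have hlow' : (q : ℝ) ^ (CA * (1 + Real.log (1 / c₁))) ≤ N * t ^ 2 := by
      refine le_trans (Real.rpow_le_rpow_of_exponent_le hqr ?_) hlow
      rw [hlog]
      have h5 : 0 ≤ CA * (Real.log (8 * (k : ℝ) ^ 2) * Real.log (1 / c)) := by positivity
      nlinarith
    obtain ⟨m, L, E, W, A, n, hkm, hmm, hqL, hqmL, hN2, hE, hEb, hchain, hsub⟩ :=
      hCH q N t hqq1 hqp hN ht (not_lt.1 ht1) hlow' hup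
    refine ⟨E, hE, hEb, ?_⟩
    have hcnt : ∀ c' : Fin TT, Cnt (H k q k) (W c' 0) ((q : ℝ) ^ (4 * (k : ℝ) ^ 2 * c₁)) := by
      intro c'
      obtain ⟨h1, h2⟩ := hchain c'
      refine hg m hkm q L (3 * t / 4) (W c') (A c') (n c') ?_ hqp (hq1.trans hqL) (by positivity)
        h1 h2
      exact (Finset.le_sup (f := g) (mem_range.2 (by omega))).trans hqq2
    have hun := Cnt_union hcnt
    refine Cnt_mono hun ?_ ?_
    · rintro a ⟨ha, haE⟩
      rcases hsub ha with h | h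
      · exact absurd h haE
      · exact h
    · have h4 : 4 * (k : ℝ) ^ 2 * c₁ = c / 2 := by
        rw [hc₁]
        field_simp
        norm_num
      rw [h4]
      have hTT : (TT : ℝ) ≤ (q : ℝ) ^ (c / 2) := by
        have h5 : (TT : ℝ) ^ (2 / c) ≤ q := (Nat.le_ceil _).trans (by exact_mod_cast hqq3)
        calc (TT : ℝ) = ((TT : ℝ) ^ (2 / c)) ^ (c / 2) := by
              rw [← Real.rpow_mul (Nat.cast_nonneg _)]
              have : 2 / c * (c / 2) = 1 := by field_simp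
              rw [this, Real.rpow_one]
          _ ≤ (q : ℝ) ^ (c / 2) :=
              Real.rpow_le_rpow (by positivity) h5 (by positivity)
      calc (TT : ℝ) * (q : ℝ) ^ (c / 2) ≤ (q : ℝ) ^ (c / 2) * (q : ℝ) ^ (c / 2) :=
            mul_le_mul_of_nonneg_right hTT (by positivity)
        _ = (q : ℝ) ^ c := by
            rw [← Real.rpow_add hqr0]
            congr 1
            ring

end Pool.Agent.H45.LV
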