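import Pool.Agent.H45.LV.A

/-!
# MP_e21eee_nt, board lvp_modules: rows GM and FB (helper45)
-/

set_option autoImplicit false

open Finset MeasureTheory

namespace Pool.Agent.H45.LV

open Pool.Agent.H24.CL Pool.Agent.H24.LV Pool.Agent.H67.CLV

theorem hd_add (hTO : T_TO) {k q : ℕ} (hq : 1 ≤ q) (V : Set (X k)) (a h : X k)
    (hh : h ∈ H k q 1) : hd q V (a + h) = hd q V a := by
  classical
  unfold hd pos
  congr 2
  refine congrArg Finset.card (filter_congr fun b _ => ?_)
  rw [map_add, (hTO k q hq).2.2.2.2.2 b h hh, add_zero]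

theorem hd_meas (hMP : T_MP) {k q : ℕ} (hq : 1 ≤ q) {V : Set (X k)} (hV : MeasurableSet V) :
    Measurable (hd q V : X k → ℝ) := by
  classical
  have h1 : (hd q V : X k → ℝ) = fun a => (∑ b ∈ range q,
      ((phi q b : X k → X k) ⁻¹' V).indicator (fun _ => (1 : ℝ)) a) / q := by
    funext a
    unfold hd pos
    congr 1
    rw [card_filter]
    push_cast
    refine sum_congr rfl fun b _ => ?_
    by_cases h : phi q b a ∈ V
    · rw [if_pos h, Set.indicator_of_mem (by exact h)]
    · rw [if_neg h, Set.indicator_of_notMem (by exact h)]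
  rw [h1]
  refine Measurable.div_const ?_ _
  refine Finset.measurable_sum _ fun b _ => ?_
  exact measurable_const.indicator (((hMP k q b hq).1.measurable) hV)

theorem H_one_le {k q r : ℕ} (hr : 1 ≤ r) : H k q 1 ≤ H k q r := by
  intro a ha
  unfold H at ha ⊢
  rw [AddMonoidHom.mem_ker] at ha ⊢
  have h1 : (q ^ 1) • a = 0 := ha
  obtain ⟨s, rfl⟩ := Nat.exists_eq_add_of_le hr
  have h2 : (q ^ (1 + s)) • a = 0 := by
    rw [pow_add, mul_comm, mul_smul, h1, smul_zero]
  exact h2

theorem GM_of (hTO : T_TO) (hMP : T_MP) : L_GM := by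
  classical
  intro k q hk hq A V τ ν hA hV hτ hν hC
  have hT := hTO k q hq
  have hHF : ∀ a : X k, a ∈ HF k q 1 ↔ a ∈ H k q 1 := hT.2.1 1
  have hcard : (HF k q 1).card = q ^ k := by
    have := hT.2.2.1 1
    rwa [one_mul] at this
  have hdm := hd_meas hMP hq hV
  have hshift : ∀ (B : Set (X k)) (h : X k), MeasurableSet B → MeasurableSet {a : X k | a + h ∈ B} :=
    fun B h hB => (measurable_add_const h) hB
  have hvshift : ∀ (B : Set (X k)) (h : X k), MeasurableSet B →
      (volume : Measure (X k)).real {a : X k | a + h ∈ B} = (volume : Measure (X k)).real B := by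
    intro B h _
    unfold Measure.real
    congr 1
    exact measure_preimage_add_right volume h B
  have hGd : ∀ B : Set (X k), GdL k q B V τ =
      (⋃ h ∈ HF k q 1, {a : X k | a + h ∈ B}) ∩ {a : X k | τ ≤ hd q V a} := by
    intro B
    ext a
    unfold GdL
    simp only [Set.mem_inter_iff, Set.mem_iUnion, Set.mem_ofPred_eq, exists_prop]
    constructor
    · rintro ⟨⟨h, h1, h2⟩, h3⟩
      exact ⟨⟨h, (hHF h).2 h1, h2⟩, h3⟩
    · rintro ⟨⟨h, h1, h2⟩, h3⟩
      exact ⟨⟨h, (hHF h).1 h1, h2⟩, h3⟩
  have hτm : MeasurableSet {a : X k | τ ≤ hd q V a} := measurableSet_le measurable_const hdm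
  have hGm : ∀ B : Set (X k), MeasurableSet B → MeasurableSet (GdL k q B V τ) := by
    intro B hB
    rw [hGd]
    exact (Finset.measurableSet_biUnion _ fun h _ => hshift B h hB).inter hτm
  have hunion : ∀ B : Set (X k), MeasurableSet B →
      (volume : Measure (X k)).real (⋃ h ∈ HF k q 1, {a : X k | a + h ∈ B}) ≤
        (q : ℝ) ^ k * (volume : Measure (X k)).real B := by
    intro B hB
    refine (measureReal_biUnion_finset_le _ _).trans ?_
    rw [sum_congr rfl (fun h _ => hvshift B h hB), sum_const, nsmul_eq_mul, hcard]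
    push_cast
    exact le_refl _
  refine ⟨hGm A hA, ?_, ?_, ?_, ?_, ?_⟩
  · rintro a ⟨⟨h0, hh0, ha0⟩, ha1⟩ h hh
    refine ⟨⟨h0 - h, (H k q 1).sub_mem hh0 hh, ?_⟩, ?_⟩
    · have : a + h + (h0 - h) = a + h0 := by abel
      rw [this]; exact ha0
    · rw [hd_add hTO hq V a h hh]; exact ha1
  · intro Γ hΓ B hB Y hY hYΓ hYinj
    have hch : ∀ y : X k, ∃ h : X k, y ∈ Y → h ∈ H k q 1 ∧ y + h ∈ A := by
      intro y
      by_cases hy : y ∈ Y
      · obtain ⟨⟨h, h1, h2⟩, _⟩ := hY y hy
        exact ⟨h, fun _ => ⟨h1, h2⟩⟩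
      · exact ⟨0, fun h => absurd h hy⟩
    choose g hg using hch
    have hinj : Set.InjOn (fun y => y + g y) (Y : Set (X k)) := by
      intro y hy y' hy' hyy
      have hy1 := hg y hy
      have hy2 := hg y' hy'
      refine hYinj y hy y' hy' ?_
      have h3 : y - y' = g y' - g y := by
        have h4 : y + g y = y' + g y' := hyy
        have h5 : y = y' + g y' - g y := by rw [← h4]; abel
        calc y - y' = (y' + g y' - g y) - y' := by rw [← h5]
          _ = g y' - g y := by abel
      rw [h3]
      exact (H k q 1).sub_mem hy2.1 hy1.1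
    have h6 := hB (Y.image (fun y => y + g y)) (by
      intro z hz
      obtain ⟨y, hy, rfl⟩ := mem_image.1 hz
      exact (hg y hy).2) (by
      intro z hz z' hz'
      obtain ⟨y, hy, rfl⟩ := mem_image.1 hz
      obtain ⟨y', hy', rfl⟩ := mem_image.1 hz'
      have h7 : y + g y - (y' + g y') = (y - y') + (g y - g y') := by abel
      rw [h7]
      exact Γ.add_mem (hYΓ y hy y' hy') (hΓ ((H k q 1).sub_mem (hg y hy).1 (hg y' hy').1)))
    rwa [card_image_of_injOn hinj] at h6
  · have hsub : GdL k q A V τ ⊆ ⋃ h ∈ HF k q 1, {a : X k | a + h ∈ A} := by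
      rw [hGd]
      exact Set.inter_subset_left
    exact (measureReal_mono hsub (measure_ne_top _ _)).trans (hunion A hA)
  · set B0 : Set (X k) := {a : X k | a ∈ A ∧ τ ≤ hd q V a} with hB0
    have hB0m : MeasurableSet B0 := hA.inter hτm
    have hne : (HF k q 1).Nonempty := by
      rw [← card_pos, hcard]
      positivity
    have hFm : Measurable (B0.indicator (fun _ => (1 : ℝ))) := measurable_const.indicator hB0m
    have hFb : ∀ a : X k, |B0.indicator (fun _ => (1 : ℝ)) a| ≤ 1 := by
      intro a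
      by_cases h : a ∈ B0
      · rw [Set.indicator_of_mem h, abs_one]
      · rw [Set.indicator_of_notMem h, abs_zero]; norm_num
    have h1 := pf_AI k (HF k q 1) (B0.indicator (fun _ => (1 : ℝ))) 1 hne hFm hFb
    have h2 : ∫ a : X k, B0.indicator (fun _ => (1 : ℝ)) a = (volume : Measure (X k)).real B0 := by
      rw [integral_indicator_const _ hB0m]; simp
    rw [h2, hcard] at h1
    have hq0 : (0 : ℝ) < (q : ℝ) ^ k := by
      have : (0 : ℝ) < q := by exact_mod_cast hq
      positivity
    have h3 : (q : ℝ) ^ k * (volume : Measure (X k)).real B0 =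
        ∫ a : X k, ∑ κ ∈ HF k q 1, B0.indicator (fun _ => (1 : ℝ)) (a + κ) := by
      rw [h1]
      push_cast
      field_simp
    rw [h3]
    have h4 : ∫ a : X k, (GdL k q A V τ).indicator (fun _ => ν) a =
        ν * (volume : Measure (X k)).real (GdL k q A V τ) := by
      rw [integral_indicator_const _ (hGm A hA)]
      simp [mul_comm]
    rw [← h4]
    refine integral_mono ?_ ?_ ?_
    · refine integrable_finset_sum _ fun κ _ => ?_
      exact intbd (hFm.comp (measurable_add_const κ)) (fun a => hFb _)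
    · exact (integrable_const ν).indicator (hGm A hA)
    · intro a
      change ∑ κ ∈ HF k q 1, B0.indicator (fun _ => (1 : ℝ)) (a + κ) ≤
        (GdL k q A V τ).indicator (fun _ => ν) a
      have h5 : ∑ κ ∈ HF k q 1, B0.indicator (fun _ => (1 : ℝ)) (a + κ) =
          (((HF k q 1).filter (fun κ => a + κ ∈ B0)).card : ℝ) := by
        rw [card_filter]
        push_cast
        refine sum_congr rfl fun κ _ => ?_
        by_cases h : a + κ ∈ B0
        · rw [Set.indicator_of_mem h, if_pos h]
        · rw [Set.indicator_of_notMem h, if_neg h]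
      rw [h5]
      by_cases ha : a ∈ GdL k q A V τ
      · rw [Set.indicator_of_mem ha]
        have h6 := hC (((HF k q 1).filter (fun κ => a + κ ∈ B0)).image (fun κ => a + κ)) (by
          intro y hy
          obtain ⟨κ, hκ, rfl⟩ := mem_image.1 hy
          exact (mem_filter.1 hκ).2.1) (by
          intro y hy y' hy'
          obtain ⟨κ, hκ, rfl⟩ := mem_image.1 hy
          obtain ⟨κ', hκ', rfl⟩ := mem_image.1 hy'
          have h7 : a + κ - (a + κ') = κ - κ' := by abel
          rw [h7]
          exact H_one_le hk ((H k q 1).sub_mem ((hHF κ).1 (mem_filter.1 hκ).1)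
            ((hHF κ').1 (mem_filter.1 hκ').1)))
        rwa [card_image_of_injective _ (add_right_injective a)] at h6
      · rw [Set.indicator_of_notMem ha]
        have h6 : (HF k q 1).filter (fun κ => a + κ ∈ B0) = ∅ := by
          rw [filter_eq_empty_iff]
          intro κ hκ h7
          apply ha
          refine ⟨⟨κ, (hHF κ).1 hκ, h7.1⟩, ?_⟩
          have := h7.2
          rwa [hd_add hTO hq V a κ ((hHF κ).1 hκ)] at this
        rw [h6]; simp
  · intro A' hA' hA'm
    have hsub : GdL k q A V τ \ GdL k q A' V τ ⊆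
        ⋃ h ∈ HF k q 1, {a : X k | a + h ∈ A \ A'} := by
      rintro a ⟨⟨⟨h, h1, h2⟩, h3⟩, h4⟩
      simp only [Set.mem_iUnion, exists_prop]
      exact ⟨h, (hHF h).2 h1, h2, fun h5 => h4 ⟨⟨h, h1, h5⟩, h3⟩⟩
    exact (measureReal_mono hsub (measure_ne_top _ _)).trans (hunion (A \ A') (hA.diff hA'm))

end Pool.Agent.H45.LV
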